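import Pool.Agent.H75.HCI.GPX
import Pool.Agent.H41.HI.Final

/-!
# Finitely many types of mobile tuples: definitions

Array level: `T : List (Idx kx k) → L` gives the full type of a tuple of points of an array with hubs of
`kx` points and rows of `k` points.

Level of ultrafilters: ultrafilters on tuples `I → ℕ` of points of `M`; `typ M V` is the type of `V` over
all points.
-/

set_option autoImplicit false

namespace Pool.Agent.H16.FK

open Set Pool.Agent.H75.HCI Pool.Agent.H41.HI

/-! ## Array level -/

section Arrays

variable {kx k : ℕ} {L : Type}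

/-- The points of the row `m` of the chunk `i` with the coordinates `a`. -/
def prt (i m : ℕ) (a : List (Fin k)) : List (Idx kx k) := a.map fun y => (i, .inr (m, y))

/-- The hub points of the chunk `i` with the coordinates `b`. -/
def hub (i : ℕ) (b : List (Fin kx)) : List (Idx kx k) := b.map fun x => (i, .inl x)

/-- The row `m` of the chunk `i`. -/
def row (i m : ℕ) : List (Idx kx k) := prt i m (List.finRange k)

/-- The hub of the chunk `i`. -/
def hubA (i : ℕ) : List (Idx kx k) := hub i (List.finRange kx)

/-- `l` does not meet the row `m` of the chunk `i`. -/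
def Miss (i m : ℕ) (l : List (Idx kx k)) : Prop := ∀ y, ((i, .inr (m, y)) : Idx kx k) ∉ l

/-- All points of `l` are in chunks below `n`. -/
def Blw (n : ℕ) (l : List (Idx kx k)) : Prop := ∀ p ∈ l, p.1 < n

/-- All points of `l` are in chunks from `n` on. -/
def Abv (n : ℕ) (l : List (Idx kx k)) : Prop := ∀ p ∈ l, n ≤ p.1

/-- `T` gives full types: the type of a tuple determines the types of its subtuples. -/
def FTx (T : List (Idx kx k) → L) : Prop :=
  ∀ (l l' : List (Idx kx k)) (w : List ℕ), l.length = l'.length → T l = T l' →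
    T (sel l w) = T (sel l' w)

/-- The axioms for the types of tuples of an array whose rows have tame proper parts. -/
structure AX (T : List (Idx kx k) → L) : Prop where
  pat : PatInv T
  ft : FTx T
  /-- a proper part of a row can be moved to any other row which is not used -/
  t3 : ∀ (l : List (Idx kx k)) (i m i' m' : ℕ) (a : List (Fin k)), a.Nodup → a.length < k →
    Miss i m l → Miss i' m' l → T (l ++ prt i m a) = T (l ++ prt i' m' a)
  /-- separation: a tuple in later chunks with the type of a proper part of a row is generic -/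
  t4 : ∀ (n : ℕ) (l p : List (Idx kx k)) (i m : ℕ) (a : List (Fin k)), Blw n l → Abv n p →
    p.Nodup → p.length = a.length → a.Nodup → a.length < k → Miss i m l →
    T p = T (prt i m a) → T (l ++ p) = T (l ++ prt i m a)

/-- The axioms with closure under adding fresh proper parts. -/
structure AXP (T : List (Idx kx k) → L) : Prop extends AX T where
  ext : ∀ (l l' : List (Idx kx k)) (i m i' m' : ℕ) (a : List (Fin k)), l.length = l'.length →
    T l = T l' → a.Nodup → a.length < k → Miss i m l → Miss i' m' l' →
    T (l ++ prt i m a) = T (l' ++ prt i' m' a)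

/-- Later rows: a tuple in later chunks with the type of a row is generic. -/
def LAST (T : List (Idx kx k) → L) : Prop :=
  ∀ (n : ℕ) (l p : List (Idx kx k)), Blw n l → Abv n p → p.Nodup → p.length = k →
    T p = T (row 0 0) → T (l ++ p) = T (l ++ row n 0)

/-- Fresh proper parts in the chunk `n`. -/
def frs (n : ℕ) (A : List (List (Fin k))) : List (Idx kx k) :=
  (A.zipIdx.map fun q => prt n q.2 q.1).flatten

/-- A bound for the chunks of `l`. -/
def bd (l : List (Idx kx k)) : ℕ := (l.map fun p => p.1 + 1).sum

/-- A list of proper parts. -/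
def Good (A : List (List (Fin k))) : Prop := ∀ a ∈ A, a.Nodup ∧ a.length < k

open Classical in
/-- The enriched type: the types of `l` with fresh proper parts. -/
noncomputable def TP (T : List (Idx kx k) → L) (l : List (Idx kx k)) : List (List (Fin k)) → L :=
  fun A => if Good A then T (l ++ frs (bd l) A) else T l

/-- The type of `l` with one later row. -/
def TV (T : List (Idx kx k) → L) (l : List (Idx kx k)) : L := T (l ++ row (bd l) 0)

/-- An isomorphism of the visible parts with block sizes `s` and `s'`. -/
structure Iso (T : List (Idx kx k) → L) (g : Idx kx k → Idx kx k) (s s' : ℕ → ℕ) : Prop where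
  inj : InjOn g (V kx k s)
  img : g '' V kx k s = V kx k s'
  lab : ∀ l : List (Idx kx k), (∀ x ∈ l, x ∈ V kx k s) → T (l.map g) = T l

/-- There are isomorphisms between visible parts with growing sizes over the first `i0` chunks. -/
def Coll (T : List (Idx kx k) → L) : Prop := ∀ i0 N : ℕ, ∃ (s s' : ℕ → ℕ)
  (g : Idx kx k → Idx kx k), StrictMono s ∧ StrictMono s' ∧ (∀ i, N ≤ s i) ∧ (∀ i, N ≤ s' i) ∧
    (∀ i < i0, s i = s' i) ∧ Fast kx (fun i => s (i0 + i)) (fun i => s' (i0 + i)) ∧
    Iso T g s s' ∧ ∀ p ∈ V kx k s, p.1 < i0 → g p = p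

/-- The classes which belong to the s-part: all rows and the hub classes in `In`. -/
def BP (In : Set (Fin kx)) : Set (ℕ × (Fin kx ⊕ ℕ)) := {q | ∀ β, q.2 = .inl β → β ∈ In}

/-- `v` is a generic proper part over `l`. -/
def Gen (T : List (Idx kx k) → L) (l v : List (Idx kx k)) : Prop :=
  v ≠ [] ∧ ∃ (a : List (Fin k)) (i m : ℕ), a.Nodup ∧ a.length = v.length ∧ a.length < k ∧
    Miss i m l ∧ T (l ++ v) = T (l ++ prt i m a)

/-- `D` is linked over `l`: no proper part of `D` is generic over `l` and the rest. -/
def Lk (T : List (Idx kx k) → L) (l D : List (Idx kx k)) : Prop :=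
  ∀ u v : List (Idx kx k), u ≠ [] → v ≠ [] → (u ++ v).Perm D → ¬ Gen T (l ++ u) v

/-- Rows in increasing chunks are symmetric (at most `q` rows). -/
def FarS (T : List (Idx kx k) → L) (q : ℕ) : Prop :=
  ∀ (n : ℕ) (l : List (Idx kx k)) (js js' : List ℕ), Blw n l → js.Pairwise (· < ·) →
    (∀ j ∈ js, n ≤ j) → js.length ≤ q → js'.Perm js →
    T (l ++ (js'.map fun j => row j 0).flatten) = T (l ++ (js.map fun j => row j 0).flatten)

end Arrays

/-! ## Ultrafilters -/

section Ultra

variable {C : Type} {I J : Type}

open Classical in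
/-- The type of an ultrafilter on tuples over all points: the almost sure labels. -/
noncomputable def typ (M : List ℕ → C) (V : Ultrafilter (I → ℕ)) (l : List (ℕ ⊕ I)) : C :=
  if h : ∃ y, ∀ᶠ x in (V : Filter (I → ℕ)), M (l.map (Sum.elim id x)) = y then h.choose else M []

/-- Finitely many labels of each length. -/
def FinL (M : List ℕ → C) : Prop := ∀ n, {y | ∃ l : List ℕ, l.length = n ∧ M l = y}.Finite

/-- Almost all tuples avoid each point. -/
def NP (V : Ultrafilter (I → ℕ)) : Prop := ∀ i a, ∀ᶠ x in (V : Filter (I → ℕ)), x i ≠ a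

/-- Almost all tuples are injective. -/
def Ij (V : Ultrafilter (I → ℕ)) : Prop := ∀ᶠ x in (V : Filter (I → ℕ)), Function.Injective x

/-- The product: first a tuple for `V`, then a tuple for `U`. -/
noncomputable def prU (V : Ultrafilter (I → ℕ)) (U : Ultrafilter (J → ℕ)) :
    Ultrafilter (I ⊕ J → ℕ) := V.bind fun x => U.map fun y => Sum.elim x y

/-- Reindexing and projections. -/
noncomputable def re (V : Ultrafilter (I → ℕ)) (f : J → I) : Ultrafilter (J → ℕ) :=
  V.map fun x => x ∘ f

/-- `V` is tame: it commutes with all ultrafilters. -/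
def Tame (M : List ℕ → C) (V : Ultrafilter (I → ℕ)) : Prop :=
  ∀ (J : Type) [Finite J] (U : Ultrafilter (J → ℕ)), NP U →
    typ M (prU V U) = typ M (re (prU U V) Sum.swap)

/-- The limit of a sequence of ultrafilters along an ultrafilter on the numbers. -/
noncomputable def limU (UU : Ultrafilter ℕ) (V : ℕ → Ultrafilter (I → ℕ)) :
    Ultrafilter (I → ℕ) := UU.bind V

end Ultra

/-! ## Systems -/

section Sys

variable {C : Type} {M : List ℕ → C} {N : Subgroup (Equiv.Perm ℕ)}

/-- The pairs of the system which fix `X` and the support of `X`. -/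
def KX (H : HSys M N) (X : List ℕ) : Set (Equiv.Perm ℕ × Equiv.Perm ℕ) :=
  {p | p ∈ H.K ∧ (∀ x ∈ X, p.1 x = x) ∧ ∀ n ∈ H.sup X, p.2 n = n}

/-- The tuple `D` is free from `X` over the base `B`. -/
def Fr (H : HSys M N) (B X : List ℕ) {I : Type} (D : I → ℕ) : Prop :=
  ∀ i, ¬ H.sup (B ++ [D i]) ⊆ H.sup X

/-- The free ultrafilters on `I`-tuples over the base `B`. -/
def FKB (H : HSys M N) (B : List ℕ) (I : Type) : Set (Ultrafilter (I → ℕ)) :=
  {V | Ij V ∧ ∀ X : List ℕ, B ⊆ X → ∀ᶠ D in (V : Filter (I → ℕ)), Fr H B X D}

/-- The free ultrafilters on `I`-tuples over some base. -/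
def FKU (H : HSys M N) (I : Type) : Set (Ultrafilter (I → ℕ)) := {V | ∃ B, V ∈ FKB H B I}

/-- `Q(k)`: all free ultrafilters on `k`-tuples are tame, and they have finitely many types. -/
def QQ (H : HSys M N) (k : ℕ) : Prop :=
  (∀ V ∈ FKU H (Fin k), Tame M V) ∧ {τ | ∃ V ∈ FKU H (Fin k), typ M V = τ}.Finite

end Sys

end Pool.Agent.H16.FK
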