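import Pool.Agent.H16.FK.TargetsA
import Pool.Agent.H71.HCI.Ty

/-!
# Arrays from ultrafilters: definitions
-/

set_option autoImplicit false

namespace Pool.Agent.H16.FK

open Set Pool.Agent.H75.HCI

/-- The data of an array: marks, an ultrafilter on the numbers, constants `c j`, the ultrafilters `V j`
of the rows and the ultrafilters `U j` of the hub points which are chosen after the rows. -/
structure Dat (kc ku k : ℕ) where
  z : List ℕ
  UU : Ultrafilter ℕ
  c : ℕ → Fin kc → ℕ
  V : ℕ → Ultrafilter (Fin k → ℕ)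
  U : ℕ → Ultrafilter (Fin ku → ℕ)

variable {C : Type} {kc ku k : ℕ}

structure Dat.OK (D : Dat kc ku k) : Prop where
  np : ∀ n : ℕ, ∀ᶠ j in (D.UU : Filter ℕ), n ≤ j
  cI : ∀ᶠ j in (D.UU : Filter ℕ), Function.Injective (D.c j)
  cN : ∀ b a, ∀ᶠ j in (D.UU : Filter ℕ), D.c j b ≠ a
  vN : ∀ᶠ j in (D.UU : Filter ℕ), Ij (D.V j) ∧ NP (D.V j)
  uN : ∀ᶠ j in (D.UU : Filter ℕ), Ij (D.U j) ∧ NP (D.U j)

/-- The data with other marks. -/
def Dat.mk' (D : Dat kc ku k) (z : List ℕ) : Dat kc ku k := { D with z := z }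

/-- A state: the index `j` of each chunk and the points. -/
structure Sta (kc ku k : ℕ) where
  j : ℕ → ℕ
  pt : Idx (kc + ku) k → ℕ

/-- The start state. -/
def st0 : Sta kc ku k := ⟨fun _ => 0, fun _ => 0⟩

/-- One step. Items: `(i, 0, 0)` starts the chunk `i` (the index `j` and the constants), `(i, 1, m)` is the
row `m` of the chunk `i`, `(i, 2, 0)` gives the last hub points of the chunk `i`. -/
noncomputable def step (D : Dat kc ku k) (it : ℕ × ℕ × ℕ) (st : Sta kc ku k) :
    Ultrafilter (Sta kc ku k) :=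
  if it.2.1 = 0 then
    D.UU.map fun j => ⟨Function.update st.j it.1 j, fun p =>
      if p.1 = it.1 then
        Sum.elim (fun b => Fin.addCases (fun b' => D.c j b') (fun _ => st.pt p) b)
          (fun _ => st.pt p) p.2
      else st.pt p⟩
  else if it.2.1 = 1 then
    (D.V (st.j it.1)).map fun y => ⟨st.j, fun p =>
      if p.1 = it.1 then
        Sum.elim (fun _ => st.pt p) (fun q => if q.1 = it.2.2 then y q.2 else st.pt p) p.2
      else st.pt p⟩
  else
    (D.U (st.j it.1)).map fun y => ⟨st.j, fun p =>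
      if p.1 = it.1 then
        Sum.elim (fun b => Fin.addCases (fun _ => st.pt p) (fun b' => y b') b)
          (fun _ => st.pt p) p.2
      else st.pt p⟩

/-- A run of a program. -/
noncomputable def run (D : Dat kc ku k) :
    List (ℕ × ℕ × ℕ) → Sta kc ku k → Ultrafilter (Sta kc ku k)
  | [], st => pure st
  | it :: σ, st => (step D it st).bind (run D σ)

/-- The order of the items. -/
def ilt (a b : ℕ × ℕ × ℕ) : Prop :=
  a.1 < b.1 ∨ (a.1 = b.1 ∧ (a.2.1 < b.2.1 ∨ (a.2.1 = b.2.1 ∧ a.2.2 < b.2.2)))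

/-- The item of a point. -/
def itp (p : Idx (kc + ku) k) : ℕ × ℕ × ℕ :=
  (p.1, Sum.elim (fun b => if b.val < kc then (0, 0) else (2, 0)) (fun q => (1, q.1)) p.2)

/-- `σ` is a program which comes after the items in `P0`. -/
structure Prg (P0 : Set (ℕ × ℕ × ℕ)) (σ : List (ℕ × ℕ × ℕ)) : Prop where
  ord : σ.Pairwise ilt
  val : ∀ a ∈ σ, a.2.1 ≤ 2 ∧ (a.2.1 ≠ 1 → a.2.2 = 0)
  aft : ∀ a ∈ σ, ∀ b ∈ P0, ilt b a
  sta : ∀ a ∈ σ, (a.1, 0, 0) ∈ σ ∨ (a.1, 0, 0) ∈ P0

/-- The box program. -/
def box (n s : ℕ) : List (ℕ × ℕ × ℕ) :=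
  (List.range n).flatMap fun i => (i, 0, 0) :: ((List.range s).map fun m => (i, 1, m)) ++ [(i, 2, 0)]

/-- A bound for all numbers in a list of points. -/
def bnd {kx k : ℕ} (l : List (Idx kx k)) : ℕ :=
  (l.map fun p => p.1 + 1 + Sum.elim (fun _ => 0) (fun q => q.1 + 1) p.2).sum

open Classical in
/-- The almost sure value. -/
noncomputable def asv {α : Type} (V : Ultrafilter α) (f : α → C) (d : C) : C :=
  if h : ∃ y, ∀ᶠ x in (V : Filter α), f x = y then h.choose else d

/-- The full type of a tuple of points of the random array over the marks. -/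
noncomputable def TD (M : List ℕ → C) (D : Dat kc ku k) (l : List (Idx (kc + ku) k)) :
    List ℕ → C := fun w =>
  asv (run D (box (bnd l) (bnd l)) st0) (fun st => M (sel (D.z ++ l.map st.pt) w)) (M [])

/-- The ultrafilter of a pattern. -/
noncomputable def pU (D : Dat kc ku k) {n : ℕ} (p : Fin n → Idx (kc + ku) k) :
    Ultrafilter (Fin n → ℕ) :=
  (run D (box (bnd (List.ofFn p)) (bnd (List.ofFn p))) st0).map fun st i => st.pt (p i)

/-- The proper parts are tame and have constant types. -/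
def PP (M : List ℕ → C) (UU : Ultrafilter ℕ) (V : ℕ → Ultrafilter (Fin k → ℕ)) : Prop :=
  ∀ a : List (Fin k), a.Nodup → a.length < k → ∃ τ, ∀ᶠ j in (UU : Filter ℕ),
    Tame M (re (V j) a.get) ∧ typ M (re (V j) a.get) = τ

/-- The marks separate the patterns from the rows. -/
def Sep (M : List ℕ → C) (D : Dat kc ku k) : Prop :=
  ∀ (n : ℕ), n ≤ k → ∀ (p : Fin n → Idx (kc + ku) k) (a : Fin n → Fin k), Function.Injective p →
    Function.Injective a → TD M D (List.ofFn p) = TD M D (prt 0 0 (List.ofFn a)) →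
    typ M (pU D p) = typ M (re (limU D.UU D.V) a)

/-- The splitting of `V` along `b`: the coordinates with `b = false` come first. -/
noncomputable def mixU {I : Type} (V : Ultrafilter (I → ℕ)) (b : I → Bool) :
    Ultrafilter (I → ℕ) := V.bind fun x => V.map fun y i => if b i then y i else x i

/-- `V` is strongly split along `b`. -/
def SS {I : Type} (M : List ℕ → C) (V : Ultrafilter (I → ℕ)) (b : I → Bool) : Prop :=
  ∀ (J : Type) [Finite J] (U : Ultrafilter (J → ℕ)), NP U →
    typ M (prU V U) = typ M (prU (mixU V b) U)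

/-- The words which correspond to the places `w` of marks, hub and row. -/
def cv1 (D : Dat kc ku k) (j : ℕ) (w : List ℕ) : List (ℕ ⊕ (Fin k ⊕ Fin ku)) :=
  sel (D.z.map Sum.inl ++ (List.finRange (kc + ku)).map
      (fun b => Fin.addCases (fun b' => Sum.inl (D.c j b')) (fun b' => Sum.inr (Sum.inr b')) b) ++
    (List.finRange k).map fun y => Sum.inr (Sum.inl y)) w

end Pool.Agent.H16.FK
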