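import Pool.Agent.H84.FK.Targets

/-!
# Board fk_modules: T2 (type (ii))
-/

set_option autoImplicit false

namespace Pool.Agent.H16.FK

open Pool.Agent.H84.FK

theorem no_inv {G : Type} [Group G] {A B B0 : Subgroup G} (hBS : T_BS) (ce : CE G A B B0) (z : G)
    (h1 : z * z = 1) (h2 : z ≠ 1) (h3 : ∀ g : G, ∃ k : ℕ, (z * (g * z * g⁻¹)) ^ (2 ^ k) = 1) :
    False := by
  haveI := ce.fin
  obtain ⟨N, hN, hp, hz⟩ := hBS G z h1 h3
  haveI : Fact (Nat.Prime 2) := ⟨Nat.prime_two⟩
  haveI : Finite N := inferInstance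
  haveI : Group.IsNilpotent N := hp.isNilpotent
  have hs : Group.IsSolvable N := inferInstance
  have h4 := ce.quo N hN hs
  rw [h4, Subgroup.mem_bot] at hz
  exact h2 hz

theorem pf_t2 (hF2 : T_F2) (hLC : T_LC) (hBS : T_BS) (hFIX : T_FIX) (hODD : T_ODD)
    (hEVEN : T_EVEN) (hC3 : T_C3) : T_T2 := by
  intro G _ A B B0 M t ce ov htB htB0 htt htM hint
  haveI := ce.fin
  have F := hF2 G A B B0 M t ce ov htB htB0 htt htM hint
  have hti : t⁻¹ = t := by
    rw [inv_eq_iff_mul_eq_one]; exact htt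
  -- commuting from cosets
  have hcom : ∀ z g : G, t * z = z * t → (g * t) * z = z * (g * t) → g * z = z * g := by
    intro z g h1 h2
    have h3 : g * z * t = z * g * t := by
      rw [mul_assoc g z t, ← h1, ← mul_assoc, h2, mul_assoc]
    exact mul_right_cancel h3
  have hconj : ∀ z g : G, g * z = z * g ↔ g * z * g⁻¹ = z := by
    intro z g
    rw [mul_inv_eq_iff_eq_mul]
  rcases hEVEN G A B B0 ce with h2 | h2
  · obtain ⟨z, hzA, hzz, hz1, htz⟩ := hFIX G A t ce.abA h2 F.norm (by rw [htt]; exact A.one_mem)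
    refine no_inv hBS ce z hzz hz1 ?_
    refine hLC G z M A B0 hzz hz1 hzA ⟨ov.le, ?_⟩ ce.abA ce.abB ?_ F.fac F.inter F.cenA F.tiA ?_ ?_
    · intro x hx y hy hxA hyA
      have hx' : x * t ∈ A := (F.coset x hx).resolve_left hxA
      have hy' : y * t ∈ A := (F.coset y hy).resolve_left hyA
      have h3 : x * y = (x * t) * (t * (y * t) * t⁻¹) := by
        rw [hti]
        calc x * y = x * (1 * y) * 1 := by group
          _ = x * ((t * t) * y) * (t * t) := by rw [htt]
          _ = (x * t) * (t * (y * t) * t) := by group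
      rw [h3]
      exact A.mul_mem hx' (F.norm _ hy')
    · intro g
      constructor
      · intro h
        exact F.cenA z hzA hz1 g (Or.inl ((hconj z g).1 h))
      · intro h
        rcases F.coset g h with h4 | h4
        · exact ce.abA g h4 z hzA
        · exact hcom z g htz (ce.abA _ h4 z hzA)
    · intro c hc hc1 h h5
      have h6 : h * z * h⁻¹ ∈ B := F.cenB c hc hc1 _ (Or.inr h5)
      refine hz1 (hC3 G A B B0 ce h⁻¹ z (h * z * h⁻¹) hzA h6 ?_)
      group
    · intro x r hr hr2 hx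
      exact hODD G A B B0 ce x r hr hr2 hx
  · have hnorm : ∀ x ∈ B0, t * x * t⁻¹ ∈ B0 := by
      intro x hx
      refine ce.two.2 (t * x) (B.mul_mem htB (ce.two.1 hx)) t⁻¹ (B.inv_mem htB) ?_ ?_
      · intro h3
        apply htB0
        have h4 := B0.mul_mem h3 (B0.inv_mem hx)
        simpa using h4
      · intro h3
        apply htB0
        have h4 := B0.inv_mem h3
        simpa using h4
    obtain ⟨z, hzB, hzz, hz1, htz⟩ := hFIX G B0 t ce.abB h2 hnorm (by rw [htt]; exact B0.one_mem)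
    refine no_inv hBS ce z hzz hz1 ?_
    refine hLC G z B B0 A hzz hz1 hzB ce.two ce.abB ce.abA ?_ ?_ ?_ F.cenB F.tiB ?_ ?_
    · intro g
      constructor
      · intro h
        exact F.cenB z hzB hz1 g (Or.inl ((hconj z g).1 h))
      · intro h
        by_cases h4 : g ∈ B0
        · exact ce.abB g h4 z hzB
        · exact hcom z g htz (ce.abB _ (ce.two.2 g h t htB h4 htB0) z hzB)
    · intro g
      obtain ⟨a, ha, b, hb, h3⟩ := ce.fac g⁻¹
      refine ⟨b⁻¹, B.inv_mem hb, a⁻¹, A.inv_mem ha, ?_⟩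
      rw [← mul_inv_rev, ← h3, inv_inv]
    · intro c hcA hcB
      exact hC3 G A B B0 ce 1 c c hcA hcB (by group)
    · intro c hc hc1 h h5
      have h6 : h * z * h⁻¹ ∈ M := F.cenA c hc hc1 _ (Or.inr h5)
      exact F.mB z hzB hz1 h h6
    · intro x r hr hr2 hx
      obtain ⟨g, hg⟩ := hODD G A B B0 ce x r hr hr2 hx
      exact ⟨g, hg.symm⟩

end Pool.Agent.H16.FK
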