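import Pool.Agent.H16.FK.Defs

/-!
# Targets, part A: array level
-/

set_option autoImplicit false

namespace Pool.Agent.H16.FK

open Set Pool.Agent.H75.HCI

section

variable {kx k : ℕ} {L : Type}

/-! ## The enriched types -/

/-- The enriched type does not depend on the choice of the fresh rows. -/
def T_TPW : Prop := ∀ (kx k : ℕ) (L : Type) (T : List (Idx kx k) → L), AX T →
  ∀ (l : List (Idx kx k)) (R : List (ℕ × ℕ × List (Fin k))),
    (R.map fun q => (q.1, q.2.1)).Nodup → (∀ q ∈ R, Miss q.1 q.2.1 l) →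
    Good (R.map fun q => q.2.2) →
    T (l ++ (R.map fun q => prt q.1 q.2.1 q.2.2).flatten) = TP T l (R.map fun q => q.2.2)

/-- The enriched types satisfy the closed axioms. -/
def T_TPX : Prop := ∀ (kx k : ℕ) (L : Type) (T : List (Idx kx k) → L), AX T → AXP (TP T)

/-- Lemma R: isomorphisms preserve the enriched types. -/
def T_LR : Prop := ∀ (kx k : ℕ) (L : Type) (T : List (Idx kx k) → L) (s s' : ℕ → ℕ)
  (g : Idx kx k → Idx kx k), AX T → 1 ≤ k → (∀ i, 1 ≤ s i) → Iso T g s s' → Iso (TP T) g s s'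

/-- Commutation of generic parts. -/
def T_COM : Prop := ∀ (kx k : ℕ) (L : Type) (T : List (Idx kx k) → L), AXP T →
  ∀ l v w : List (Idx kx k), Gen T l v → Gen T (l ++ v) w → Gen T (l ++ w) v

/-- Linked tuples are determined by the types. -/
def T_LKI : Prop := ∀ (kx k : ℕ) (L : Type) (T : List (Idx kx k) → L), AXP T →
  (∀ l l' D D' : List (Idx kx k), l.length = l'.length → D.length = D'.length →
    T (l ++ D) = T (l' ++ D') → Lk T l D → Lk T l' D') ∧
  ∀ l l1 D : List (Idx kx k), Lk T l D → Lk T (l ++ l1) D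

/-! ## Recognition of the rows, nonsplit case -/

/-- A hub cell: `k` hub coordinates with the type of a row. -/
def HB (T : List (Idx kx k) → L) (J : List (Fin kx)) : Prop :=
  J.Nodup ∧ J.length = k ∧ T (hub 0 J) = T (row 0 0)

/-- A hub cell which is disjoint from all other hub cells. -/
def BG (T : List (Idx kx k) → L) (J : List (Fin kx)) : Prop :=
  HB T J ∧ ∀ J', HB T J' → J'.Perm J ∨ J'.Disjoint J

/-- `cl` describes the classes of the hub coordinates. -/
def ClB (T : List (Idx kx k) → L) (cl : Fin kx → Fin kx) : Prop :=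
  ∀ b b', cl b = cl b' ↔ b = b' ∨ ∃ J, BG T J ∧ b ∈ J ∧ b' ∈ J

def T_CLE : Prop := ∀ (kx k : ℕ) (L : Type) (T : List (Idx kx k) → L),
  ∃ cl : Fin kx → Fin kx, ClB T cl

/-- Cells are rows or lie in one hub. -/
def T_RB1 : Prop := ∀ (kx k : ℕ) (L : Type) (T : List (Idx kx k) → L), AXP T → 1 ≤ k →
  Lk T [] (row 0 0) → ∀ D : List (Idx kx k), D.Nodup → D.length = k → T D = T (row 0 0) →
    (∃ i m, D.Perm (row i m)) ∨ ∃ i b, D = hub i b

def T_RB2 : Prop := ∀ (kx k : ℕ) (L : Type) (T : List (Idx kx k) → L) (cl : Fin kx → Fin kx)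
  (s s' : ℕ → ℕ) (g : Idx kx k → Idx kx k), AXP T → 1 ≤ k → Lk T [] (row 0 0) → ClB T cl →
  Iso T g s s' → Emb T (ec cl) T (ec cl) g (V kx k s)

def T_RB3 : Prop := ∀ (kx k : ℕ) (L : Type) (T : List (Idx kx k) → L) (cl : Fin kx → Fin kx),
  AXP T → 1 ≤ k → Lk T [] (row 0 0) → ClB T cl → Coll T →
  ∃ In ⊆ range cl, SPart T (ec cl) univ (BP In)

/-! ## Recognition of the rows, linked case -/

/-- `b0` is a minimal set of hub coordinates over which the rows are linked. -/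
def W0 (T : List (Idx kx k) → L) (b0 : List (Fin kx)) : Prop :=
  b0.Nodup ∧ Lk T (hub 0 b0) (row 0 0) ∧
    ∀ b1 : List (Fin kx), b1.Nodup → b1 ⊆ b0 → b1.length < b0.length →
      ¬ Lk T (hub 0 b1) (row 0 0)

/-- A standard family: it has the type of the hub points `b0` and `k + 1` rows of the chunk `0`. -/
structure SF (T : List (Idx kx k) → L) (b0 : List (Fin kx)) (w : List (Idx kx k))
    (Ds : List (List (Idx kx k))) : Prop where
  len : w.length = b0.length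
  num : Ds.length = k + 1
  lenD : ∀ D ∈ Ds, D.length = k
  nd : (w ++ Ds.flatten).Nodup
  lab : T (w ++ Ds.flatten) = T (hub 0 b0 ++ ((List.range (k + 1)).map (row 0)).flatten)

/-- `D` occurs in a standard family in the visible part with block sizes `s`. -/
def Occ (T : List (Idx kx k) → L) (b0 : List (Fin kx)) (s : ℕ → ℕ) (D : List (Idx kx k)) : Prop :=
  ∃ w Ds, SF T b0 w Ds ∧ (∀ p ∈ w, p ∈ V kx k s) ∧ (∀ E ∈ Ds, ∀ p ∈ E, p ∈ V kx k s) ∧
    ∃ E ∈ Ds, E.Perm D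

/-- `D` is a bag. -/
def Bag (T : List (Idx kx k) → L) (b0 : List (Fin kx)) (s : ℕ → ℕ) (D : List (Idx kx k)) : Prop :=
  Occ T b0 s D ∧ ∀ D', Occ T b0 s D' → D'.Perm D ∨ D'.Disjoint D

def T_RA1 : Prop := ∀ (kx k : ℕ) (L : Type) (T : List (Idx kx k) → L) (b0 : List (Fin kx)),
  AXP T → 1 ≤ k → W0 T b0 → ∀ (w : List (Idx kx k)) (Ds : List (List (Idx kx k))), SF T b0 w Ds →
    ∀ D ∈ Ds, ∀ i m, ¬ Miss i m D → D.Perm (row i m)

def T_RA2 : Prop := ∀ (kx k : ℕ) (L : Type) (T : List (Idx kx k) → L) (b0 : List (Fin kx))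
  (s : ℕ → ℕ), AXP T → 1 ≤ k → W0 T b0 → (∀ i, k + 1 ≤ s i) →
    ∀ i m, m < s i → Bag T b0 s (row i m)

/-- In late chunks the bags are the rows and certain hub sets, the same for all sizes. -/
def T_RA3 : Prop := ∀ (kx k : ℕ) (L : Type) (T : List (Idx kx k) → L) (b0 : List (Fin kx)),
  AXP T → 1 ≤ k → W0 T b0 → ∃ (i0 N0 : ℕ) (JJ : List (Fin kx) → Prop),
    (∀ J, JJ J → J.Nodup ∧ J.length = k) ∧ (∀ J J', JJ J → JJ J' → J'.Perm J ∨ J'.Disjoint J) ∧
    (∀ J J', JJ J → J'.Perm J → JJ J') ∧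
    ∀ s : ℕ → ℕ, StrictMono s → (∀ i, N0 ≤ s i) → ∀ D : List (Idx kx k),
      (∀ p ∈ D, i0 ≤ p.1 ∧ p ∈ V kx k s) →
      (Bag T b0 s D ↔ (∃ i m, D.Perm (row i m)) ∨ ∃ i J, JJ J ∧ D = hub i J)

/-- Isomorphisms preserve bags. -/
def T_RA4 : Prop := ∀ (kx k : ℕ) (L : Type) (T : List (Idx kx k) → L) (b0 : List (Fin kx))
  (s s' : ℕ → ℕ) (g : Idx kx k → Idx kx k), Iso T g s s' → ∀ D : List (Idx kx k),
    (∀ p ∈ D, p ∈ V kx k s) → (Bag T b0 s D ↔ Bag T b0 s' (D.map g))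

def T_RA5 : Prop := ∀ (kx k : ℕ) (L : Type) (T : List (Idx kx k) → L), AXP T → 1 ≤ k → Coll T →
  Lk T (hubA 0) (row 0 0) → ∃ (cl : Fin kx → Fin kx) (In : Set (Fin kx)), In ⊆ range cl ∧
    SPart T (ec cl) univ (BP In)

/-! ## Far rows -/

/-- If the far rows are symmetric then the rows of the same chunk look like later rows. -/
def T_AT : Prop := ∀ (kx k : ℕ) (L : Type) (T : List (Idx kx k) → L) (cl : Fin kx → Fin kx)
  (In : Set (Fin kx)), 1 ≤ k → PatInv T → FTx T → (∀ q, FarS T q) → In ⊆ range cl →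
  SPart T (ec cl) univ (BP In) → ∀ i m j, i < j →
    T (hubA i ++ row i m) = T (hubA i ++ row j 0)

/-- A row of the chunk `n` split by `c`. -/
def srow (n : ℕ) (c : Fin k → ℕ) : List (Idx kx k) :=
  (List.finRange k).map fun y => (n, .inr (c y, y))

/-- The far rows are split. -/
def SPL (T : List (Idx kx k) → L) : Prop := ∃ c : Fin k → ℕ, (∃ y y', c y ≠ c y') ∧
  ∀ (n : ℕ) (l : List (Idx kx k)), Blw n l → T (l ++ row n 0) = T (l ++ srow n c)

def T_SFA : Prop := ∀ (kx k : ℕ) (L : Type) (T : List (Idx kx k) → L), AXP T → SPL T →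
  ∀ q, FarS T q

/-- Theorem A* at the level of arrays. -/
def T_AST : Prop := ∀ (kx k : ℕ) (L : Type) (T : List (Idx kx k) → L), AXP T → 1 ≤ k →
  Coll T → SPL T → ¬ Lk T (hubA 0) (row 0 0)

/-- The nonsplit case with symmetric far rows. -/
def T_NSP : Prop := ∀ (kx k : ℕ) (L : Type) (T : List (Idx kx k) → L), AXP T → 1 ≤ k →
  Coll T → Lk T [] (row 0 0) → (∀ q, FarS T q) →
    T (hubA 0 ++ row 0 0) = T (hubA 0 ++ row 1 0)

/-! ## Symmetry of the far rows -/

/-- Twists of a row which are invisible. -/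
def Tw (T : List (Idx kx k) → L) (a : List (Fin k)) : Prop :=
  a.Nodup ∧ a.length = k ∧ T (prt 0 0 a) = T (row 0 0)

/-- The rows `js` with the orders `as`. -/
def trw (js : List ℕ) (as : List (List (Fin k))) : List (Idx kx k) :=
  (List.zipWith (fun j a => prt j 0 a) js as).flatten

/-- The rows `js`. -/
def rws (js : List ℕ) : List (Idx kx k) := (js.map fun j => row j 0).flatten

/-- Symmetric far rows may be permuted and twisted. -/
def T_TWI : Prop := ∀ (kx k : ℕ) (L : Type) (T : List (Idx kx k) → L) (q : ℕ), PatInv T →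
  FTx T → LAST T → FarS T q → ∀ (n : ℕ) (l : List (Idx kx k)) (js js' : List ℕ)
    (as : List (List (Fin k))), Blw n l → js.Pairwise (· < ·) → (∀ j ∈ js, n ≤ j) →
    js.length ≤ q → js'.Nodup → (∀ j ∈ js', n ≤ j) → js'.length = js.length →
    as.length = js.length → (∀ a ∈ as, Tw T a) → T (l ++ trw js' as) = T (l ++ rws js)

/-- The group argument: symmetry up to twists implies symmetry. -/
def T_GRP : Prop := ∀ (kx k : ℕ) (L : Type) (T : List (Idx kx k) → L) (q : ℕ), PatInv T →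
  FTx T → LAST T →
  (∀ js' : List ℕ, js'.Perm (List.range q) → ∃ as : List (List (Fin k)), as.length = q ∧
    (∀ a ∈ as, a.Nodup ∧ a.length = k) ∧ T (trw js' as) = T (rws (List.range q))) →
  ∀ js' : List ℕ, js'.Perm (List.range q) → T (rws js') = T (rws (List.range q))

/-- The pair `X`, `Y` has the type of two independent rows, up to twists. -/
def Lt (T : List (Idx kx k) → L) (X Y : List (Idx kx k)) : Prop :=
  ∃ a b, Tw T a ∧ Tw T b ∧ T (X ++ Y) = T (prt 0 0 a ++ prt 1 0 b)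

def T_S2G : Prop := ∀ (kx k : ℕ) (L : Type) (T : List (Idx kx k) → L), PatInv T → FTx T →
  LAST T → T (row 1 0 ++ row 0 0) ≠ T (row 0 0 ++ row 1 0) →
  ∀ X Y : List (Idx kx k), X.length = k → Y.length = k → Lt T X Y → ¬ Lt T Y X

/-- One hub cell. -/
def T_S2A : Prop := ∀ (k : ℕ) (L : Type) (T : List (Idx k k) → L) (cl : Fin k → Fin k)
  (In : Set (Fin k)), 1 ≤ k → PatInv T → FTx T → LAST T → In ⊆ range cl →
  SPart T (ec cl) univ (BP In) → (∀ b b', cl b = cl b') → T (hubA 0) = T (row 0 0) →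
  Lt T (hubA 0) (row 0 0) ∨ Lt T (row 0 0) (hubA 0)

/-- Two hub cells: no cycles. -/
def T_S2B : Prop := ∀ (kx k : ℕ) (L : Type) (T : List (Idx kx k) → L) (cl : Fin kx → Fin kx)
  (In : Set (Fin kx)) (J0 J1 : List (Fin kx)), 1 ≤ k → PatInv T → FTx T → LAST T →
  In ⊆ range cl → SPart T (ec cl) univ (BP In) → (J0 ++ J1).Perm (List.finRange kx) →
  J0.length = k → J1.length = k →
  (∀ b b', cl b = cl b' ↔ (b ∈ J0 ∧ b' ∈ J0) ∨ (b ∈ J1 ∧ b' ∈ J1)) →
  T (hub 0 J0) = T (row 0 0) → T (hub 0 J1) = T (row 0 0) →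
  (∀ X Y : List (Idx kx k), X.length = k → Y.length = k → Lt T X Y → ¬ Lt T Y X) →
  Lt T (row 0 0) (hub 0 J0) → Lt T (hub 0 J0) (hub 0 J1) → Lt T (hub 0 J1) (row 0 0) → False

/-- `q` hub cells, `q ≥ 2`. -/
def T_S3 : Prop := ∀ (kx k q : ℕ) (L : Type) (T : List (Idx kx k) → L) (cl : Fin kx → Fin kx)
  (In : Set (Fin kx)) (Js : List (List (Fin kx))), 1 ≤ k → 2 ≤ q → PatInv T → FTx T → LAST T →
  In ⊆ range cl → SPart T (ec cl) univ (BP In) → Js.length = q →
  Js.flatten.Perm (List.finRange kx) → (∀ J ∈ Js, J.length = k ∧ T (hub 0 J) = T (row 0 0)) →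
  (∀ b b', cl b = cl b' ↔ ∃ J ∈ Js, b ∈ J ∧ b' ∈ J) → FarS T q →
  (∀ J ∈ Js, ∀ js' : List ℕ, js'.Perm (List.range q) →
    T (hub 0 J ++ (js'.map (row 0)).flatten) =
      T (hub 0 J ++ ((List.range q).map (row 0)).flatten)) →
  T (hubA 0 ++ row 0 0) = T (hubA 0 ++ row 1 0)

/-! ## The results for the types themselves -/

/-- The coloring of a splitting. -/
def bh (b : Fin k → Bool) : Fin k → ℕ := fun y => if b y then 1 else 0

/-- `b` is not constant. -/
def NC (b : Fin k → Bool) : Prop := (∃ y, b y = true) ∧ ∃ y, b y = false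

/-- The rows are nonsplit over the marks. -/
def NSpl (T : List (Idx kx k) → L) : Prop :=
  ∀ b : Fin k → Bool, NC b → T (row 0 0) ≠ T (srow 0 (bh b))

/-- Parts of rows with the same type can be exchanged. -/
def T_FPX : Prop := ∀ (kx k : ℕ) (L : Type) (T : List (Idx kx k) → L), AX T →
  ∀ (l : List (Idx kx k)) (i m i' m' : ℕ) (a a' : List (Fin k)), a.Nodup → a'.Nodup →
    a.length = a'.length → a.length < k → T (prt i m a) = T (prt i' m' a') → Miss i m l →
    Miss i' m' l → T (l ++ prt i m a) = T (l ++ prt i' m' a')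

def T_NLK : Prop := ∀ (kx k : ℕ) (L : Type) (T : List (Idx kx k) → L), AX T →
  ∀ h : List (Fin kx), ¬ Lk (TP T) (hub 0 h) (row 0 0) →
    ∃ b : Fin k → Bool, NC b ∧ T (hub 0 h ++ row 0 0) = T (hub 0 h ++ srow 0 (bh b))

def T_LKN : Prop := ∀ (kx k : ℕ) (L : Type) (T : List (Idx kx k) → L), AX T →
  NSpl T → Lk (TP T) [] (row 0 0)

def T_FST : Prop := ∀ (kx k : ℕ) (L : Type) (T : List (Idx kx k) → L), AX T →
  ∀ q, FarS T q → FarS (TP T) q

def T_SPT : Prop := ∀ (kx k : ℕ) (L : Type) (T : List (Idx kx k) → L), AX T →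
  SPL T → SPL (TP T)

def T_HBL : Prop := ∀ (kx k : ℕ) (L : Type) (T : List (Idx kx k) → L), AX T → LAST T →
  ∀ J : List (Fin kx), HB (TP T) J ↔ HB T J

def T_CRS : Prop := ∀ (kx k : ℕ) (L : Type) (T : List (Idx kx k) → L) (cl : Fin kx → Fin kx)
  (B : Set (ℕ × (Fin kx ⊕ ℕ))), SPart (TP T) (ec cl) univ B → SPart T (ec cl) univ B

def T_TOPA : Prop := ∀ (kx k : ℕ) (L : Type) (T : List (Idx kx k) → L), AX T → 1 ≤ k →
  Coll T → SPL T → ∃ b : Fin k → Bool, NC b ∧ T (hubA 0 ++ row 0 0) = T (hubA 0 ++ srow 0 (bh b))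

def T_TOPB : Prop := ∀ (kx k : ℕ) (L : Type) (T : List (Idx kx k) → L), AX T → 1 ≤ k →
  Coll T → NSpl T → (∀ q, FarS T q) → T (hubA 0 ++ row 0 0) = T (hubA 0 ++ row 1 0)

def T_TOPC : Prop := ∀ (kx k : ℕ) (L : Type) (T : List (Idx kx k) → L) (cl : Fin kx → Fin kx),
  AX T → LAST T → 1 ≤ k → Coll T → NSpl T → ClB T cl →
  ∃ In ⊆ range cl, SPart T (ec cl) univ (BP In)

end

end Pool.Agent.H16.FK
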