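import Pool.Agent.H16.FK.DefsB

/-!
# Targets, part B: arrays from ultrafilters
-/

set_option autoImplicit false

namespace Pool.Agent.H16.FK

open Set Pool.Agent.H75.HCI Pool.Agent.H41.HI

/-! ## The random array -/

/-- The distribution of a tuple depends only on its pattern (relative to the past). -/
def T_DIS : Prop := ∀ (kc ku k : ℕ) (D : Dat kc ku k) (P0 : Set (ℕ × ℕ × ℕ))
  (st st' : Sta kc ku k) (l : List (Idx (kc + ku) k))
  (h : Idx (kc + ku) k → Idx (kc + ku) k) (σ σ' : List (ℕ × ℕ × ℕ)), PatOn h {p | p ∈ l} →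
  Prg P0 σ → Prg P0 σ' → (∀ p ∈ l, itp p ∈ P0 → h p = p ∧ st'.pt p = st.pt p) →
  (∀ c, (c, 0, 0) ∈ P0 → st'.j c = st.j c) →
  (∀ p ∈ l, itp p ∉ P0 → itp p ∈ σ ∧ itp (h p) ∈ σ') →
  (∀ p ∈ l, (p.1, 0, 0) ∈ P0 → (h p).1 = p.1) →
  (∀ p ∈ l, (p.1, 0, 0) ∉ P0 → ((h p).1, 0, 0) ∉ P0) →
  ∀ φ : List ℕ → Prop, (∀ᶠ s in (run D σ st : Filter (Sta kc ku k)), φ (l.map s.pt)) ↔
    ∀ᶠ s in (run D σ' st' : Filter (Sta kc ku k)), φ ((l.map h).map s.pt)

/-- The type computed with any program. -/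
def T_TDV : Prop := ∀ (C : Type) (kc ku k : ℕ) (M : List ℕ → C) (D : Dat kc ku k), FinL M →
  ∀ (l : List (Idx (kc + ku) k)) (σ : List (ℕ × ℕ × ℕ)), Prg ∅ σ → (∀ p ∈ l, itp p ∈ σ) →
    ∀ (st : Sta kc ku k) (w : List ℕ), ∀ᶠ s in (run D σ st : Filter (Sta kc ku k)),
      M (sel (D.z ++ l.map s.pt) w) = TD M D l w

def T_TDP : Prop := ∀ (C : Type) (kc ku k : ℕ) (M : List ℕ → C) (D : Dat kc ku k), FinL M →
  PatInv (TD M D) ∧ FTx (TD M D)

/-- Realisation of the random array with arbitrary block sizes. -/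
def T_REAL : Prop := ∀ (C : Type) (kc ku k r : ℕ) (M : List ℕ → C) (D : Dat kc ku k), FinL M →
  Ar r M → D.OK → ∀ S : ℕ → ℕ, ∃ pt : Idx (kc + ku) k → ℕ, InjOn pt (V (kc + ku) k S) ∧
    (∀ p ∈ V (kc + ku) k S, pt p ∉ D.z) ∧
    ∀ l : List (Idx (kc + ku) k), (∀ p ∈ l, p ∈ V (kc + ku) k S) → ∀ w,
      TD M D l w = M (sel (D.z ++ l.map pt) w)

/-- Proper parts can be moved. -/
def T_T3D : Prop := ∀ (C : Type) (kc ku k : ℕ) (M : List ℕ → C) (D : Dat kc ku k), FinL M →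
  D.OK → PP M D.UU D.V → ∀ (l : List (Idx (kc + ku) k)) (i m i' m' : ℕ) (a : List (Fin k)),
    a.Nodup → a.length < k → Miss i m l → Miss i' m' l →
    TD M D (l ++ prt i m a) = TD M D (l ++ prt i' m' a)

/-- Separation gives genericity of later tuples. -/
def T_T4D : Prop := ∀ (C : Type) (kc ku k : ℕ) (M : List ℕ → C) (D : Dat kc ku k), FinL M →
  D.OK → PP M D.UU D.V → Sep M D →
  (∀ (n : ℕ) (l p : List (Idx (kc + ku) k)) (i m : ℕ) (a : List (Fin k)), Blw n l → Abv n p →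
    p.Nodup → p.length = a.length → a.Nodup → a.length < k → Miss i m l →
    TD M D p = TD M D (prt i m a) → TD M D (l ++ p) = TD M D (l ++ prt i m a)) ∧
  LAST (TD M D)

/-- Separating marks exist. -/
def T_SEPX : Prop := ∀ (C : Type) (kc ku k r : ℕ) (M : List ℕ → C) (D : Dat kc ku k), FinL M →
  Ar r M → ∃ z1 : List ℕ, ∀ z : List ℕ, z1 ⊆ z → Sep M (D.mk' z)

/-- The axioms for the types of the random array. -/
def T_AXD : Prop := ∀ (C : Type) (kc ku k : ℕ) (M : List ℕ → C) (D : Dat kc ku k), FinL M →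
  D.OK → PP M D.UU D.V → Sep M D → AX (TD M D) ∧ LAST (TD M D)

/-- The splittings of the members converge to the splitting of the limit. -/
def T_MXL : Prop := ∀ (C : Type) (k : ℕ) (M : List ℕ → C) (UU : Ultrafilter ℕ)
  (V : ℕ → Ultrafilter (Fin k → ℕ)), FinL M → (∀ᶠ j in (UU : Filter ℕ), NP (V j)) → PP M UU V →
  ∀ b : Fin k → Bool, NC b → (∀ᶠ j in (UU : Filter ℕ),
    typ M (mixU (V j) b) = typ M (mixU (limU UU V) b)) ∧
    ∀ᶠ j in (UU : Filter ℕ), Tame M (mixU (V j) b)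

/-- If the limit is split then the far rows are split. -/
def T_SPD : Prop := ∀ (C : Type) (kc ku k : ℕ) (M : List ℕ → C) (D : Dat kc ku k), FinL M →
  D.OK → PP M D.UU D.V → ∀ b : Fin k → Bool, NC b →
    typ M (limU D.UU D.V) = typ M (mixU (limU D.UU D.V) b) → SPL (TD M D)

/-- If the limit is nonsplit and the marks see it then the rows are nonsplit. -/
def T_NSD : Prop := ∀ (C : Type) (kc ku k : ℕ) (M : List ℕ → C) (D : Dat kc ku k), FinL M →
  D.OK → PP M D.UU D.V →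
  (∀ b : Fin k → Bool, NC b → ∃ l : List (Fin D.z.length ⊕ Fin k),
    typ M (limU D.UU D.V) (l.map (Sum.map D.z.get id)) ≠
      typ M (mixU (limU D.UU D.V) b) (l.map (Sum.map D.z.get id))) → NSpl (TD M D)

/-- Symmetric powers of the limit give symmetric far rows. -/
def T_FSD : Prop := ∀ (C : Type) (kc ku k q : ℕ) (M : List ℕ → C) (D : Dat kc ku k), FinL M →
  D.OK → (∀ n ≤ q, H71.HCI.SymN M (limU D.UU D.V) n) → FarS (TD M D) q

/-- Symmetric powers of the members give symmetric rows of a chunk over the constants. -/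
def T_BLD : Prop := ∀ (C : Type) (kc k q : ℕ) (M : List ℕ → C) (D : Dat kc 0 k), FinL M →
  D.OK → (∀ᶠ j in (D.UU : Filter ℕ), H71.HCI.SymN M (D.V j) q) →
  ∀ (J : List (Fin kc)) (js' : List ℕ), js'.Perm (List.range q) →
    TD M D (hub 0 J ++ (js'.map (row 0)).flatten) =
      TD M D (hub 0 J ++ ((List.range q).map (row 0)).flatten)

def T_EV1 : Prop := ∀ (C : Type) (kc ku k : ℕ) (M : List ℕ → C) (D : Dat kc ku k), FinL M →
  ∀ w : List ℕ, ∀ᶠ j in (D.UU : Filter ℕ),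
    typ M (prU (D.V j) (D.U j)) (cv1 D j w) = TD M D (hubA 0 ++ row 0 0) w

def T_EV2 : Prop := ∀ (C : Type) (kc ku k : ℕ) (M : List ℕ → C) (D : Dat kc ku k), FinL M →
  ∀ w : List ℕ, ∀ᶠ j in (D.UU : Filter ℕ),
    typ M (re (prU (D.U j) (limU D.UU D.V)) Sum.swap) (cv1 D j w) =
      TD M D (hubA 0 ++ row 1 0) w

def T_EV3 : Prop := ∀ (C : Type) (kc ku k : ℕ) (M : List ℕ → C) (D : Dat kc ku k), FinL M →
  ∀ (b : Fin k → Bool) (w : List ℕ), ∀ᶠ j in (D.UU : Filter ℕ),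
    typ M (prU (mixU (D.V j) b) (D.U j)) (cv1 D j w) = TD M D (hubA 0 ++ srow 0 (bh b)) w

/-! ## Witnesses -/

/-- Witnesses against strong splitting, of bounded size. -/
def T_SSX : Prop := ∀ (C : Type) (r k : ℕ) (M : List ℕ → C), FinL M → Ar r M → ∃ Bd : ℕ,
  ∀ V : Ultrafilter (Fin k → ℕ), NP V → (∀ b, NC b → ¬ SS M V b) →
    ∃ m ≤ Bd, ∃ mu ≤ Bd, ∃ c : Fin m → ℕ, Function.Injective c ∧
      ∃ U : Ultrafilter (Fin mu → ℕ), NP U ∧ Ij U ∧ ∀ b, NC b →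
        ∃ l : List (Fin m ⊕ (Fin k ⊕ Fin mu)),
          typ M (prU V U) (l.map (Sum.map c id)) ≠
            typ M (prU (mixU V b) U) (l.map (Sum.map c id))

/-- Constant and nonconstant coordinates. -/
def T_CSP : Prop := ∀ (m : ℕ) (UU : Ultrafilter ℕ) (c : ℕ → Fin m → ℕ),
  ∃ (kc : ℕ) (e : Fin kc → Fin m) (z0 : List ℕ), Function.Injective e ∧
    (∀ b a, ∀ᶠ j in (UU : Filter ℕ), c j (e b) ≠ a) ∧
    ∀ i, (∃ b, e b = i) ∨ ∃ a ∈ z0, ∀ᶠ j in (UU : Filter ℕ), c j i = a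

/-- It is enough to commute with injective ultrafilters on `Fin mu`-tuples. -/
def T_NDU : Prop := ∀ (C I : Type) (M : List ℕ → C) (V : Ultrafilter (I → ℕ)), FinL M →
  Finite I → NP V → (∀ (mu : ℕ) (U : Ultrafilter (Fin mu → ℕ)), NP U → Ij U →
    typ M (prU V U) = typ M (re (prU U V) Sum.swap)) → Tame M V

end Pool.Agent.H16.FK
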